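import Pool.Agent.Lib.MP_8f79a4_an.CaseLt
import Pool.Agent.Lib.MP_8f79a4_an.CaseEqFinal
import Pool.Agent.Lib.MP_8f79a4_an.LorentzUpper

/-!
Critical Lorentz sharpness for the Fourier decay of Riesz potentials of measures: full answer.
-/

set_option autoImplicit false

open MeasureTheory Filter
open scoped ENNReal Topology

open Pool.Agent.Lib.MP_8f79a4_an

namespace Pool.Agent.Results.MP_8f79a4_an.FullAnswer

/-- For `0 < β ≤ d`, `α > 0`, `p = 2d/(2α+β)` and `0 < q < ∞`: if `β < d` or `q < 2`, there is a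
sequence of finite signed measures with both norms bounded whose Riesz potentials have Fourier
transforms with `L^{p,q}` quasi-norms tending to infinity; if `β = d` and `q ≥ 2`, the quasi-norms
are bounded uniformly over all finite signed measures having both norms at most `1`. -/
theorem result (d : ℕ) (hd : 1 ≤ d) (β α p q : ℝ) (hβ : 0 < β) (hβd : β ≤ d) (hα : 0 < α)
    (hq : 0 < q) (hp : p = 2 * d / (2 * α + β)) :
    ((β < d ∨ q < 2) → ∃ Φ : ℕ → SignedMeasure (EuclideanSpace ℝ (Fin d)),
      (∃ C : ℝ, ∀ N, massNorm (Φ N) + besovNorm β (Φ N) ≤ ENNReal.ofReal C) ∧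
      Tendsto (fun N => lorentzNorm p q (rieszFourier α (Φ N))) atTop (𝓝 ∞)) ∧
    ((β = d ∧ 2 ≤ q) → ∃ C : ℝ, ∀ μ : SignedMeasure (EuclideanSpace ℝ (Fin d)),
      massNorm μ ≤ 1 → besovNorm β μ ≤ 1 →
        lorentzNorm p q (rieszFourier α μ) ≤ ENNReal.ofReal C) := by
  constructor
  · intro h
    rcases lt_or_eq_of_le hβd with h1 | h1
    · exact case_lt hd hβ h1 hα hq hp
    · rcases h with h | h
      · exact absurd h1 h.ne
      · subst h1
        exact case_eq hd hα hq h hp
  · rintro ⟨h1, h2⟩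
    subst h1
    exact case_eq_upper hd hα hp h2

end Pool.Agent.Results.MP_8f79a4_an.FullAnswer
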